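import Pool.Agent.K3h16.SF.Stm2

/-!
# Brick FIT of project SF (helper16): the Fitting idempotent; compare brick NIL of helper25
-/

set_option autoImplicit false

namespace Pool.Agent.K3h90.SF

open Pool.Agent.K3h16.SF Polynomial

universe v

theorem t_FIT : S_FIT.{v} := by
  intro R _ _ x P hmon hX hP
  have hP0 : P ≠ 0 := hmon.ne_zero
  obtain ⟨Q, hPQ, hnd⟩ := Polynomial.exists_eq_pow_rootMultiplicity_mul_and_not_dvd P hP0 0
  rw [C_0, sub_zero] at hPQ hnd
  have hk : P.rootMultiplicity 0 ≠ 0 := by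
    intro h0
    rw [h0, pow_zero, one_mul] at hPQ
    exact hnd (hPQ ▸ hX)
  obtain ⟨m, hm⟩ := Nat.exists_eq_succ_of_ne_zero hk
  rw [hm, Nat.succ_eq_add_one] at hPQ
  have hcop : IsCoprime (X ^ (m + 1) : ℚ[X]) Q :=
    IsCoprime.pow_left ((Polynomial.irreducible_X.coprime_iff_not_dvd).2 hnd)
  obtain ⟨A, B, hAB⟩ := hcop
  have he : aeval x (A * X ^ m) * x = aeval x (A * X ^ (m + 1)) := by
    rw [pow_succ, ← mul_assoc, map_mul (aeval x) (A * X ^ m) X, aeval_X]
  have hidem : aeval x (A * X ^ (m + 1)) * aeval x (A * X ^ (m + 1)) =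
      aeval x (A * X ^ (m + 1)) := by
    have h1 : A * X ^ (m + 1) * (A * X ^ (m + 1)) = A * X ^ (m + 1) - A * B * P := by
      have h2 : A * X ^ (m + 1) = 1 - B * Q := by rw [← hAB]; ring
      rw [hPQ]
      calc A * X ^ (m + 1) * (A * X ^ (m + 1)) = A * X ^ (m + 1) * (1 - B * Q) := by rw [← h2]
        _ = A * X ^ (m + 1) - A * B * (X ^ (m + 1) * Q) := by ring
    rw [← map_mul, h1, map_sub, map_mul (aeval x) (A * B) P, hP, mul_zero, sub_zero]
  refine ⟨A * X ^ m, ?_, m, ?_⟩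
  · rw [he]
    exact hidem
  · rw [he]
    have h1 : x * (1 - aeval x (A * X ^ (m + 1))) = aeval x (X * (1 - A * X ^ (m + 1))) := by
      rw [map_mul (aeval x) X, aeval_X, map_sub, map_one]
    have h2 : (X * (1 - A * X ^ (m + 1)) : ℚ[X]) ^ (m + 1) = B ^ (m + 1) * Q ^ m * P := by
      have h3 : 1 - A * X ^ (m + 1) = B * Q := by rw [← hAB]; ring
      rw [h3, hPQ]
      ring
    rw [h1, ← map_pow, h2, map_mul (aeval x) (B ^ (m + 1) * Q ^ m) P, hP, mul_zero]

end Pool.Agent.K3h90.SF
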