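import Pool.Agent.K3h8.SF.Stm
import Pool.Agent.K3h63.PD.Chain
import Pool.Agent.K3h63.PD.Tens

/-!
# Nilpotence for the tensor powers of an object with a vanishing exterior or symmetric power
-/

set_option autoImplicit false
set_option linter.unusedSectionVars false
set_option linter.unusedSimpArgs false
set_option backward.isDefEq.respectTransparency false
set_option backward.defeqAttrib.useBackward true

open CategoryTheory Limits MonoidalCategory
open Pool.Agent.Y112.SR Pool.Agent.Y112.KD Pool.Agent.R905 Pool.Agent.K3h8.KS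

namespace Pool.Agent.K3h90.SF

universe v u w

variable {C : Type u} [Category.{v} C] [Preadditive C] [Linear ℚ C] [MonoidalCategory C]
  [MonoidalPreadditive C] [MonoidalLinear ℚ C] [SymmetricCategory C]

lemma asym_unit : asym (-1 : ℚ) (𝟙_ C) 2 = 0 := by
  have hb : (β_ (𝟙_ C) (𝟙_ C)).hom = 𝟙 _ := by
    rw [braiding_tensorUnit_left, unitors_equal, Iso.hom_inv_id]
  have hs : sw (tp (𝟙_ C) 0) (𝟙_ C) = 𝟙 _ := by
    unfold sw
    rw [hb]
    simp
  rw [asym_succ, asym_one, hs]
  simp

/-- The tensor powers of an object with a vanishing exterior or symmetric power have the same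
property. -/
lemma tp_kill {T : C} {κ : ℚ} (hκ : κ = 1 ∨ κ = -1) {a : ℕ} (h : asym κ T a = 0) (k : ℕ) :
    ∃ (κ' : ℚ) (b : ℕ), (κ' = 1 ∨ κ' = -1) ∧ asym κ' (tp T k) (b + 1) = 0 := by
  have hκκ : κ * κ = 1 := by rcases hκ with rfl | rfl <;> norm_num
  induction k with
  | zero => exact ⟨-1, 1, Or.inr rfl, asym_unit⟩
  | succ k ih =>
    obtain ⟨κ', b, hκ', hb⟩ := ih
    have hκκ' : κ' * κ' = 1 := by rcases hκ' with rfl | rfl <;> norm_num
    have h1 : asym κ T (a + 1) = 0 := asym_mono hκκ T h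
    obtain ⟨N, hN⟩ := Pool.Agent.K3h63.PD.tensor_kill hκκ' hκκ hb h1
    refine ⟨-(κ' * κ), N, ?_, ?_⟩
    · rcases hκ with rfl | rfl <;> rcases hκ' with rfl | rfl <;> norm_num
    · refine asym_mono ?_ _ hN
      linear_combination (κ * κ) * hκκ' + hκκ

end Pool.Agent.K3h90.SF

namespace Pool.Agent.K3h90.SF

universe v u w

variable (C : Type u) [Category.{v} C] [MonoidalCategory C] [SymmetricCategory C]
  [Preadditive C] [Linear ℚ C] [MonoidalPreadditive C] [MonoidalLinear ℚ C] [RightRigidCategory C]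
  [IsIdempotentComplete C]

theorem t_NOPH : Pool.Agent.K3h8.SF.NOPH.{v, u, w} C := by
  intro K _ R hU T κ hκ a h k
  obtain ⟨κ', b, hκ', hb⟩ := tp_kill hκ h k
  exact (Pool.Agent.K3h63.PD.kf_of_asym hκ' hb).homNil R hU

end Pool.Agent.K3h90.SF
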